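import Pool.Agent.CG.Defs

/-!
# CG-Z-Engel: sanity check of the structure `Carnot`: the Engel group (step three)
`V_1 = <e_0, e_1>`, `V_2 = <e_2>`, `V_3 = <e_3>`, `[e_0, e_1] = e_2`, `[e_0, e_2] = e_3`, all other
brackets zero; the group law is the Baker-Campbell-Hausdorff formula
`x + y + [x,y]/2 + [x,[x,y]]/12 + [y,[y,x]]/12`.
PLAN.  All fields are polynomial identities coordinate by coordinate (`funext i; fin_cases i; ring`).
For `gen`: `bracketOf mul x y = ![0, 0, x 0 * y 1 - x 1 * y 0, x 0 * y 2 - x 2 * y 0]` (compute the two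
derivatives; `deriv` of a polynomial in one variable with values in `Fin 4 → ℝ`, use
`HasDerivAt` via `hasDerivAt_pi`), then both inclusions of the spans, layers `j + 1 = 2, 3, ≥ 4`.
-/

set_option autoImplicit false

namespace Pool.Agent.CG

open scoped ContDiff

/-- The weights of the Engel group. -/
def engelDeg : Fin 4 → ℕ := ![1, 1, 2, 3]

/-- The group law of the Engel group. -/
noncomputable def engelMul (x y : Pt 4) : Pt 4 :=
  ![x 0 + y 0, x 1 + y 1, x 2 + y 2 + (x 0 * y 1 - x 1 * y 0) / 2,
    x 3 + y 3 + (x 0 * y 2 - x 2 * y 0) / 2 +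
      (x 0 - y 0) * (x 0 * y 1 - x 1 * y 0) / 12]

private theorem engel_comm (x y : Pt 4) (s t : ℝ) :
    engelMul (s • x) (t • y) - engelMul (t • y) (s • x) =
      (s * t) • (![0, 0, x 0 * y 1 - x 1 * y 0, x 0 * y 2 - x 2 * y 0] : Pt 4) := by
  funext i
  fin_cases i <;> simp [engelMul] <;> ring

theorem engel_bracket (x y : Pt 4) :
    bracketOf engelMul x y = ![0, 0, x 0 * y 1 - x 1 * y 0, x 0 * y 2 - x 2 * y 0] := by
  unfold bracketOf
  simp only [engel_comm]
  generalize (![0, 0, x 0 * y 1 - x 1 * y 0, x 0 * y 2 - x 2 * y 0] : Pt 4) = v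
  have h1 : ∀ s : ℝ, deriv (fun t : ℝ => (s * t) • v) 0 = s • v := by
    intro s
    have h := (((hasDerivAt_id (0 : ℝ)).const_mul s).smul_const v).deriv
    rw [mul_one] at h
    exact h
  simp only [h1]
  have h := ((hasDerivAt_id (0 : ℝ)).smul_const v).deriv
  rw [one_smul] at h
  exact h

private theorem engel_smooth : ContDiff ℝ ∞ (fun q : Pt 4 × Pt 4 => engelMul q.1 q.2) := by
  have h1 : ∀ i : Fin 4, ContDiff ℝ ∞ (fun q : Pt 4 × Pt 4 => q.1 i) := fun i =>
    (contDiff_apply ℝ ℝ i).comp contDiff_fst
  have h2 : ∀ i : Fin 4, ContDiff ℝ ∞ (fun q : Pt 4 × Pt 4 => q.2 i) := fun i =>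
    (contDiff_apply ℝ ℝ i).comp contDiff_snd
  have h3 : ContDiff ℝ ∞ (fun q : Pt 4 × Pt 4 => q.1 0 * q.2 1 - q.1 1 * q.2 0) :=
    ((h1 0).mul (h2 1)).sub ((h1 1).mul (h2 0))
  rw [contDiff_pi]
  intro i
  fin_cases i
  · exact (h1 0).add (h2 0)
  · exact (h1 1).add (h2 1)
  · exact ((h1 2).add (h2 2)).add (h3.div_const 2)
  · exact (((h1 3).add (h2 3)).add ((((h1 0).mul (h2 2)).sub ((h1 2).mul (h2 0))).div_const 2)).add
      ((((h1 0).sub (h2 0)).mul h3).div_const 12)

private theorem engel_gen (j : ℕ) (hj : 1 ≤ j) :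
    Submodule.span ℝ {z | ∃ x ∈ layerOf engelDeg 1, ∃ y ∈ layerOf engelDeg j,
      z = bracketOf engelMul x y} = layerOf engelDeg (j + 1) := by
  apply le_antisymm
  · rw [Submodule.span_le]
    rintro z ⟨x, hx, y, hy, rfl⟩
    rw [engel_bracket]
    intro i hi
    fin_cases i
    · rfl
    · rfl
    · have h1 : j ≠ 1 := fun h => hi (by subst h; rfl)
      have h2 : y 0 = 0 := hy 0 (fun h : 1 = j => h1 h.symm)
      have h3 : y 1 = 0 := hy 1 (fun h : 1 = j => h1 h.symm)
      show x 0 * y 1 - x 1 * y 0 = 0
      rw [h2, h3]; ring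
    · have h1 : j ≠ 2 := fun h => hi (by subst h; rfl)
      have h2 : y 2 = 0 := hy 2 (fun h : 2 = j => h1 h.symm)
      have h3 : x 2 = 0 := hx 2 (fun h : 2 = 1 => by omega)
      show x 0 * y 2 - x 2 * y 0 = 0
      rw [h2, h3]; ring
  · intro z hz
    have h0 : z 0 = 0 := hz 0 (fun h : 1 = j + 1 => by omega)
    have h1 : z 1 = 0 := hz 1 (fun h : 1 = j + 1 => by omega)
    have hx : (![1, 0, 0, 0] : Pt 4) ∈ layerOf engelDeg 1 := by
      intro i hi
      fin_cases i
      · exact absurd rfl hi
      · rfl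
      · rfl
      · rfl
    rcases Nat.lt_trichotomy j 2 with h | h | h
    · have hj1 : j = 1 := by omega
      subst hj1
      have h3 : z 3 = 0 := hz 3 (fun h : 3 = 1 + 1 => by omega)
      apply Submodule.subset_span
      refine ⟨![1, 0, 0, 0], hx, ![0, z 2, 0, 0], ?_, ?_⟩
      · intro i hi
        fin_cases i
        · rfl
        · exact absurd rfl hi
        · rfl
        · rfl
      · rw [engel_bracket]
        funext i
        fin_cases i
        · exact h0
        · exact h1
        · simp
        · simpa using h3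
    · subst h
      have h2 : z 2 = 0 := hz 2 (fun h : 2 = 2 + 1 => by omega)
      apply Submodule.subset_span
      refine ⟨![1, 0, 0, 0], hx, ![0, 0, z 3, 0], ?_, ?_⟩
      · intro i hi
        fin_cases i
        · rfl
        · rfl
        · exact absurd rfl hi
        · rfl
      · rw [engel_bracket]
        funext i
        fin_cases i
        · exact h0
        · exact h1
        · simpa using h2
        · simp
    · have h2 : z 2 = 0 := hz 2 (fun h' : 2 = j + 1 => by omega)
      have h3 : z 3 = 0 := hz 3 (fun h' : 3 = j + 1 => by omega)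
      have : z = 0 := by
        funext i
        fin_cases i
        · exact h0
        · exact h1
        · exact h2
        · exact h3
      rw [this]
      exact Submodule.zero_mem _

/-- The Engel group as a Carnot group. -/
noncomputable def engel : Carnot 4 2 where
  deg := engelDeg
  hor := ![0, 1]
  mul := engelMul
  deg_pos := by decide
  hor_inj := by decide
  hor_iff := by decide
  smooth := engel_smooth
  assoc := by
    intro x y z
    funext i
    fin_cases i <;> simp [engelMul] <;> ring
  exp := by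
    intro x s t
    funext i
    fin_cases i <;> simp [engelMul] <;> ring
  dil := by
    intro r hr x y
    funext i
    fin_cases i <;> simp [engelMul, dilate, engelDeg] <;> ring
  gen := engel_gen

end Pool.Agent.CG
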