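import Pool.Agent.CG.Elliptic

/-!
# CG-Z-PLap: sanity check: the `p`-Laplacian `A(ξ) = |ξ|^{p-2} ξ` satisfies `Elliptic` (δ = 0, all 1 < p)
PLAN.  Off the origin `ξ ↦ ‖ξ‖^{p-2} • ξ` is smooth (`contDiffAt_norm`, `Real.rpow`), with derivative
`DA(ξ) η = ‖ξ‖^{p-2} η + (p-2) ‖ξ‖^{p-4} ⟨ξ, η⟩ ξ`.  So `⟨DA η, η⟩ = ‖ξ‖^{p-2} (‖η‖² + (p-2) ⟨ξ,η⟩²/‖ξ‖²)`, between
`min 1 (p-1)` and `max 1 (p-1)` times `‖ξ‖^{p-2} ‖η‖²` (Cauchy-Schwarz), and `(0 + ‖ξ‖²)^{(p-2)/2} = ‖ξ‖^{p-2}`.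
Symmetric.  Continuity at `0`: `‖A ξ‖ = ‖ξ‖^{p-1} → 0`.
-/

set_option autoImplicit false

namespace Pool.Agent.CG

open scoped ContDiff

private lemma plap_hasFDeriv {m : ℕ} {q δ : ℝ} {ξ : Hv m} (hw : 0 < δ + ‖ξ‖ ^ 2) :
    HasFDerivAt (fun ξ : Hv m => (δ + ‖ξ‖ ^ 2) ^ q • ξ)
      ((δ + ‖ξ‖ ^ 2) ^ q • ContinuousLinearMap.id ℝ (Hv m) +
        ((q * (δ + ‖ξ‖ ^ 2) ^ (q - 1)) • (2 • innerSL ℝ ξ)).smulRight ξ) ξ := by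
  have h1 : HasFDerivAt (fun ξ : Hv m => δ + ‖ξ‖ ^ 2) (2 • innerSL ℝ ξ) ξ :=
    (hasStrictFDerivAt_norm_sq ξ).hasFDerivAt.const_add δ
  have h2 := h1.rpow_const (p := q) (Or.inl hw.ne')
  exact h2.smul (hasFDerivAt_id ξ)

private lemma plap_fderiv {m : ℕ} {q δ : ℝ} {ξ : Hv m} (hw : 0 < δ + ‖ξ‖ ^ 2) (η ζ : Hv m) :
    inner ℝ (fderiv ℝ (fun ξ : Hv m => (δ + ‖ξ‖ ^ 2) ^ q • ξ) ξ η) ζ =
      (δ + ‖ξ‖ ^ 2) ^ q * inner ℝ η ζ +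
        2 * q * ((δ + ‖ξ‖ ^ 2) ^ q / (δ + ‖ξ‖ ^ 2)) * inner ℝ ξ η * inner ℝ ξ ζ := by
  rw [(plap_hasFDeriv (q := q) hw).fderiv, Real.rpow_sub_one hw.ne']
  simp only [add_apply, smul_apply,
    ContinuousLinearMap.smulRight_apply, ContinuousLinearMap.id_apply, inner_add_left,
    real_inner_smul_left, innerSL_apply_apply, smul_eq_mul, nsmul_eq_mul, Nat.cast_ofNat]
  ring

private lemma plap_gen {m : ℕ} {p δ : ℝ} (hp : 1 < p) (hδ : 0 ≤ δ)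
    (hc : Continuous (fun ξ : Hv m => (δ + ‖ξ‖ ^ 2) ^ ((p - 2) / 2) • ξ)) :
    Elliptic p δ (min 1 (p - 1)) (max 1 (p - 1))
      (fun ξ : Hv m => (δ + ‖ξ‖ ^ 2) ^ ((p - 2) / 2) • ξ) := by
  have hpos : ∀ ξ : Hv m, ξ ≠ 0 → 0 < δ + ‖ξ‖ ^ 2 := by
    intro ξ hξ
    have := norm_pos_iff.2 hξ
    positivity
  have hval : ∀ ξ : Hv m, ξ ≠ 0 → ∀ η : Hv m, ∃ t : ℝ, 0 ≤ t ∧ t ≤ ‖η‖ ^ 2 ∧
      inner ℝ (fderiv ℝ (fun ξ : Hv m => (δ + ‖ξ‖ ^ 2) ^ ((p - 2) / 2) • ξ) ξ η) η =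
        (δ + ‖ξ‖ ^ 2) ^ ((p - 2) / 2) * (‖η‖ ^ 2 + (p - 2) * t) := by
    intro ξ hξ η
    have hw := hpos ξ hξ
    refine ⟨(inner ℝ ξ η) ^ 2 / (δ + ‖ξ‖ ^ 2), by positivity, ?_, ?_⟩
    · rw [div_le_iff₀ hw]
      have h1 : (inner ℝ ξ η) ^ 2 ≤ (‖ξ‖ * ‖η‖) ^ 2 := by
        apply sq_le_sq'
        · have := abs_real_inner_le_norm ξ η
          exact (abs_le.1 this).1
        · exact real_inner_le_norm ξ η
      nlinarith [mul_nonneg hδ (sq_nonneg ‖η‖)]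
    · rw [plap_fderiv hw, real_inner_self_eq_norm_sq]
      field_simp
  refine ⟨hc, ?_, ?_, ?_, Or.inl ?_⟩
  · intro ξ hξ
    have hw := hpos ξ hξ
    apply ContDiffAt.contDiffWithinAt
    have h1 : ContDiffAt ℝ 1 (fun ξ : Hv m => (δ + ‖ξ‖ ^ 2) ^ ((p - 2) / 2)) ξ := by
      have h0 : ContDiffAt ℝ 1 (fun ξ : Hv m => δ + ‖ξ‖ ^ 2) ξ :=
        contDiffAt_const.add (contDiff_norm_sq ℝ).contDiffAt
      exact h0.rpow_const_of_ne hw.ne'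
    exact h1.smul contDiffAt_id
  · intro ξ hξ η
    obtain ⟨t, ht0, ht1, ht⟩ := hval ξ hξ η
    rw [ht]
    have hw : 0 ≤ (δ + ‖ξ‖ ^ 2) ^ ((p - 2) / 2) := Real.rpow_nonneg (hpos ξ hξ).le _
    have h1 : min 1 (p - 1) * ‖η‖ ^ 2 ≤ ‖η‖ ^ 2 + (p - 2) * t := by
      rcases le_total 2 p with h2 | h2
      · have : min 1 (p - 1) ≤ 1 := min_le_left _ _
        nlinarith [sq_nonneg ‖η‖, mul_nonneg (sub_nonneg.2 h2) ht0]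
      · have : min 1 (p - 1) ≤ p - 1 := min_le_right _ _
        nlinarith [sq_nonneg ‖η‖, mul_nonneg (sub_nonneg.2 h2) (sub_nonneg.2 ht1)]
    calc min 1 (p - 1) * (δ + ‖ξ‖ ^ 2) ^ ((p - 2) / 2) * ‖η‖ ^ 2
        = (δ + ‖ξ‖ ^ 2) ^ ((p - 2) / 2) * (min 1 (p - 1) * ‖η‖ ^ 2) := by ring
      _ ≤ _ := mul_le_mul_of_nonneg_left h1 hw
  · intro ξ hξ η
    obtain ⟨t, ht0, ht1, ht⟩ := hval ξ hξ η
    rw [ht]
    have hw : 0 ≤ (δ + ‖ξ‖ ^ 2) ^ ((p - 2) / 2) := Real.rpow_nonneg (hpos ξ hξ).le _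
    have h1 : ‖η‖ ^ 2 + (p - 2) * t ≤ max 1 (p - 1) * ‖η‖ ^ 2 := by
      rcases le_total 2 p with h2 | h2
      · have : p - 1 ≤ max 1 (p - 1) := le_max_right _ _
        nlinarith [sq_nonneg ‖η‖, mul_nonneg (sub_nonneg.2 h2) (sub_nonneg.2 ht1)]
      · have : 1 ≤ max 1 (p - 1) := le_max_left _ _
        nlinarith [sq_nonneg ‖η‖, mul_nonneg (sub_nonneg.2 h2) ht0]
    calc (δ + ‖ξ‖ ^ 2) ^ ((p - 2) / 2) * (‖η‖ ^ 2 + (p - 2) * t)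
        ≤ (δ + ‖ξ‖ ^ 2) ^ ((p - 2) / 2) * (max 1 (p - 1) * ‖η‖ ^ 2) :=
          mul_le_mul_of_nonneg_left h1 hw
      _ = _ := by ring
  · intro ξ hξ η ζ
    have hw := hpos ξ hξ
    rw [plap_fderiv hw, plap_fderiv hw, real_inner_comm η ζ]
    ring

theorem plap_elliptic {m : ℕ} {p : ℝ} (hp : 1 < p) :
    Elliptic p 0 (min 1 (p - 1)) (max 1 (p - 1)) (fun ξ : Hv m => ‖ξ‖ ^ (p - 2) • ξ) := by
  have he : (fun ξ : Hv m => ‖ξ‖ ^ (p - 2) • ξ) =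
      fun ξ : Hv m => (0 + ‖ξ‖ ^ 2) ^ ((p - 2) / 2) • ξ := by
    funext ξ
    congr 1
    rw [zero_add, ← Real.rpow_natCast ‖ξ‖ 2, ← Real.rpow_mul (norm_nonneg _)]
    congr 1
    push_cast
    ring
  have hn : ∀ ξ : Hv m, ‖‖ξ‖ ^ (p - 2) • ξ‖ = ‖ξ‖ ^ (p - 1) := by
    intro ξ
    rcases eq_or_ne ξ 0 with rfl | hξ
    · rw [smul_zero, norm_zero, Real.zero_rpow (by linarith)]
    · have h0 := norm_pos_iff.2 hξ
      rw [norm_smul, Real.norm_of_nonneg (Real.rpow_nonneg h0.le _)]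
      have h1 : p - 1 = (p - 2) + 1 := by ring
      rw [h1, Real.rpow_add_one h0.ne']
  have hc : Continuous (fun ξ : Hv m => ‖ξ‖ ^ (p - 2) • ξ) := by
    rw [continuous_iff_continuousAt]
    intro ξ
    rcases eq_or_ne ξ 0 with rfl | hξ
    · rw [ContinuousAt, smul_zero, tendsto_zero_iff_norm_tendsto_zero]
      simp_rw [hn]
      have h1 : Continuous fun ξ : Hv m => ‖ξ‖ ^ (p - 1) :=
        continuous_norm.rpow_const fun _ => Or.inr (by linarith)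
      have h2 := h1.tendsto (0 : Hv m)
      rwa [norm_zero, Real.zero_rpow (by linarith)] at h2
    · exact (continuousAt_id.norm.rpow_const (Or.inl (norm_ne_zero_iff.2 hξ))).smul
        continuousAt_id
  rw [he] at hc ⊢
  exact plap_gen hp le_rfl hc

/-- The regularised model case: `A(ξ) = (δ + |ξ|²)^{(p-2)/2} ξ`, `δ > 0`. -/
theorem plap_elliptic_reg {m : ℕ} {p δ : ℝ} (hp : 1 < p) (hδ : 0 < δ) :
    Elliptic p δ (min 1 (p - 1)) (max 1 (p - 1))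
      (fun ξ : Hv m => (δ + ‖ξ‖ ^ 2) ^ ((p - 2) / 2) • ξ) := by
  apply plap_gen hp hδ.le
  have h1 : Continuous (fun ξ : Hv m => (δ + ‖ξ‖ ^ 2) ^ ((p - 2) / 2)) := by
    refine Continuous.rpow_const (by fun_prop) fun ξ => Or.inl ?_
    positivity
  exact h1.smul continuous_id

end Pool.Agent.CG
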